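import Pool.Agent.E8helper15.FR.Final
set_option autoImplicit false

/-! A large part of a set of small doubling lies densely in a very proper convex progression. -/

namespace Pool.Agent.E8helper15.FR

open Finset Pool.Agent.Y806.DF
open scoped Pointwise

theorem body_smul {r : ℕ} {B : Set (Fin r → ℝ)} (hB : Body B) {c : ℝ} (hc : c ≠ 0) :
    Body (c • B) := by
  refine ⟨hB.1.smul c, hB.2.1.smul c, ?_, ?_⟩
  · rw [interior_smul₀ hc]
    exact hB.2.2.1.smul_set
  · rintro _ ⟨x, hx, rfl⟩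
    exact ⟨-x, hB.2.2.2 x hx, smul_neg c x⟩

theorem body_sym {r : ℕ} {B : Set (Fin r → ℝ)} (hB : Body B) : Sym B :=
  ⟨hB.1, hB.2.1, hB.2.2.2, hB.2.2.1.mono interior_subset⟩

/-- covering the lattice points of `B` by translates of the lattice points of `B / 8` -/
theorem cover_eighth {r : ℕ} {B : Set (Fin r → ℝ)} (hB : Sym B) :
    ∃ F : Finset (Fin r → ℤ), (F.card : ℝ) ≤ 4096 ^ r ∧
      ∀ v ∈ lat B, ∃ f ∈ F, ∃ w ∈ lat ((1 / 8 : ℝ) • B), v = f + w := by
  obtain ⟨F, hF, hFc⟩ := cover_two hB (t := 1 / 8) (by norm_num) (by norm_num)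
  refine ⟨F, ?_, ?_⟩
  · have h1 := num_pow hB (t := 1 / 16) (by norm_num) 4
    have e1 : (2 : ℝ) ^ 4 * (1 / 16) = 1 := by norm_num
    have e2 : (1 / 8 : ℝ) / 2 = 1 / 16 := by norm_num
    rw [e1] at h1
    rw [e2] at hF
    have h2 : (num B 1 : ℝ) ≤ 256 ^ r * num B (1 / 16) := by
      have : num B 1 ≤ 256 ^ r * num B (1 / 16) := by simpa using h1
      exact_mod_cast this
    have h3 : (0 : ℝ) < num B (1 / 16) := by exact_mod_cast num_pos hB (1 / 16)
    have h4 : (F.card : ℝ) * num B (1 / 16) ≤ 4096 ^ r * num B (1 / 16) := by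
      calc (F.card : ℝ) * num B (1 / 16) ≤ 16 ^ r * num B 1 := hF
        _ ≤ 16 ^ r * (256 ^ r * num B (1 / 16)) := mul_le_mul_of_nonneg_left h2 (by positivity)
        _ = 4096 ^ r * num B (1 / 16) := by
          rw [← mul_assoc, ← mul_pow]; norm_num
    exact le_of_mul_le_mul_right h4 h3
  · intro v hv
    have h3 := lat_mono (hB.mono (s := 1) (t := 2) (by norm_num) (by norm_num))
    rw [one_smul] at h3
    exact hFc v (h3 hv)

/-- A large part of `A` lies densely in a very proper convex progression. -/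
theorem dense_part {Γ : Type*} [AddCommGroup Γ] [DecidableEq Γ]
    (htf : ∀ (n : ℕ) (x : Γ), n ≠ 0 → n • x = 0 → x = 0) {K : ℝ} {A : Finset Γ}
    (hA : A.Nonempty) (hK : ((A + A).card : ℝ) ≤ K * A.card) {M : ℕ} (hM : 12 ≤ M)
    {K₂ : ℝ} (hK₂ : K₂ = (2 * K) ^ (20000 * M)) :
    ∃ (Z : Finset Γ) (r : ℕ) (B : Set (Fin r → ℝ)) (θ : (Fin r → ℤ) →+ Γ) (t : Γ),
      Z.Nonempty ∧ Z ⊆ A ∧ (A.card : ℝ) ≤ (2 * K) ^ (19000 * M) * Z.card ∧
      ((Z + Z).card : ℝ) ≤ K₂ * Z.card ∧ (r : ℝ) ≤ 2100 * M * Real.log (2 * K₂) ∧ Body B ∧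
      Set.InjOn θ (lat ((8 : ℝ) • B)) ∧
      ((lat B).ncard : ℝ) ≤ Real.exp (1000 * M * Real.log (2 * K₂) ^ (1 + (6 : ℝ) / M)) * Z.card ∧
      ∀ a ∈ Z, ∃ x ∈ lat B, a = t + θ x := by
  classical
  have hK1 := one_le_of_doubling hA hK
  have hK0 : 0 < K := by linarith
  obtain ⟨κ, hκ⟩ : ∃ κ : ℝ, κ = Real.log (2 * K) := ⟨_, rfl⟩
  have hexpκ : Real.exp κ = 2 * K := by rw [hκ, Real.exp_log (by linarith)]
  have hM0 : (12 : ℝ) ≤ M := by exact_mod_cast hM
  have hκ69 : (0.69 : ℝ) < κ := by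
    have h1 := Real.log_two_gt_d9
    have h2 : Real.log 2 ≤ κ := by
      rw [hκ]; exact Real.log_le_log (by norm_num) (by linarith)
    linarith
  have hκ0 : 0 < κ := by linarith
  have h2K : 1 ≤ 2 * K := by linarith
  obtain ⟨r, B₀, θ, T, hr, hB₀, hθ, hvol, hT, hcov⟩ := poly_tf htf hA hK hM
  obtain ⟨F, hF, hFc⟩ := cover_eighth (body_sym hB₀)
  obtain ⟨⟨t0, f0⟩, -, hpop⟩ := pigeon (T ×ˢ F) A A hA
    (fun i a => ∃ w ∈ lat ((1 / 8 : ℝ) • B₀), a = (i.1 + θ i.2) + θ w) (Finset.Subset.refl _) (by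
      intro a ha
      obtain ⟨t, ht, x, hx, e⟩ := hcov a ha
      obtain ⟨f, hf, w, hw, e2⟩ := hFc x hx
      refine ⟨(t, f), Finset.mem_product.2 ⟨ht, hf⟩, w, hw, ?_⟩
      rw [e, e2, map_add, add_assoc])
  set Z := A.filter (fun a => ∃ w ∈ lat ((1 / 8 : ℝ) • B₀), a = ((t0, f0).1 + θ (t0, f0).2) + θ w)
    with hZ
  have hApos : 0 < A.card := hA.card_pos
  have hZpos : 0 < Z.card := by
    by_contra h
    have h0 : Z.card = 0 := by omega
    rw [h0, mul_zero] at hpop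
    omega
  have hZA : Z ⊆ A := Finset.filter_subset _ _
  have hTF : (T.card : ℝ) * F.card ≤ (2 * K) ^ (19000 * M) := by
    have h1 : (F.card : ℝ) ≤ Real.exp (17470 * M * κ) := by
      have h2 : (4096 : ℝ) ≤ Real.exp 8.3178 := by
        rw [← Real.log_le_iff_le_exp (by norm_num), show (4096 : ℝ) = 2 ^ 12 by norm_num,
          Real.log_pow]
        have := Real.log_two_lt_d9
        push_cast
        linarith
      have h3 : (r : ℝ) ≤ 2100 * M * κ := by rw [hκ]; exact hr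
      have hMκ : 0 ≤ (M : ℝ) * κ := by positivity
      calc (F.card : ℝ) ≤ 4096 ^ r := hF
        _ ≤ (Real.exp 8.3178) ^ r := pow_le_pow_left₀ (by norm_num) h2 _
        _ = Real.exp (r * 8.3178) := by rw [← Real.exp_nat_mul]
        _ ≤ Real.exp (17470 * M * κ) := by
          refine Real.exp_le_exp.2 ?_
          nlinarith
    have h4 : (T.card : ℝ) ≤ Real.exp (800 * M * κ) := by
      refine hT.trans (le_of_eq ?_)
      rw [← hexpκ, ← Real.exp_nat_mul]
      push_cast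
      ring_nf
    calc (T.card : ℝ) * F.card ≤ Real.exp (800 * M * κ) * Real.exp (17470 * M * κ) :=
          mul_le_mul h4 h1 (Nat.cast_nonneg _) (Real.exp_pos _).le
      _ = Real.exp (18270 * M * κ) := by rw [← Real.exp_add]; congr 1; ring
      _ ≤ Real.exp (19000 * M * κ) := by
        refine Real.exp_le_exp.2 ?_
        have hMκ : 0 ≤ (M : ℝ) * κ := by positivity
        nlinarith
      _ = (2 * K) ^ (19000 * M) := by
        rw [← hexpκ, ← Real.exp_nat_mul]
        push_cast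
        ring_nf
  have hAZ : (A.card : ℝ) ≤ (2 * K) ^ (19000 * M) * Z.card := by
    have h5 : A.card ≤ (T.card * F.card) * Z.card := by
      rw [← Finset.card_product]
      exact hpop
    calc (A.card : ℝ) ≤ (T.card * F.card) * Z.card := by exact_mod_cast h5
      _ ≤ (2 * K) ^ (19000 * M) * Z.card := mul_le_mul_of_nonneg_right hTF (Nat.cast_nonneg _)
  have hdoub : ((Z + Z).card : ℝ) ≤ K₂ * Z.card := by
    have h1 : ((Z + Z).card : ℝ) ≤ (A + A).card := by
      exact_mod_cast Finset.card_le_card (Finset.add_subset_add hZA hZA)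
    calc ((Z + Z).card : ℝ) ≤ (A + A).card := h1
      _ ≤ K * A.card := hK
      _ ≤ (2 * K) ^ (1000 * M) * A.card := by
        refine mul_le_mul_of_nonneg_right ?_ (Nat.cast_nonneg _)
        calc K ≤ (2 * K) ^ 1 := by rw [pow_one]; linarith
          _ ≤ (2 * K) ^ (1000 * M) := pow_le_pow_right₀ h2K (by omega)
      _ ≤ (2 * K) ^ (1000 * M) * ((2 * K) ^ (19000 * M) * Z.card) :=
        mul_le_mul_of_nonneg_left hAZ (by positivity)
      _ = K₂ * Z.card := by
        rw [hK₂, ← mul_assoc, ← pow_add]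
        congr 2
        ring
  have hlog : 20000 * M * κ ≤ Real.log (2 * K₂) := by
    rw [hK₂, Real.log_mul (by norm_num) (by positivity), Real.log_pow, ← hκ]
    have := Real.log_two_gt_d9
    push_cast
    linarith
  refine ⟨Z, r, (1 / 8 : ℝ) • B₀, θ, t0 + θ f0, Finset.card_pos.1 hZpos, hZA, hAZ, hdoub, ?_,
    body_smul hB₀ (by norm_num), ?_, ?_, ?_⟩
  · refine hr.trans ?_
    rw [← hκ]
    refine mul_le_mul_of_nonneg_left (le_trans ?_ hlog) (by positivity)
    nlinarith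
  · rw [smul_smul]
    norm_num
    exact hθ
  · have h0 : ((lat ((1 / 8 : ℝ) • B₀)).ncard : ℝ) ≤ (lat B₀).ncard := by
      have h1 := lat_mono ((body_sym hB₀).mono (s := 1 / 8) (t := 1) (by norm_num) (by norm_num))
      rw [one_smul] at h1
      have h2 : (lat B₀).Finite := lat_finite hB₀.2.1.isBounded
      exact_mod_cast Set.ncard_le_ncard h1 h2
    have h1 : ((lat B₀).ncard : ℝ) ≤ Real.exp (1000 * M * κ ^ (1 + (6 : ℝ) / M)) *
        (Real.exp (19000 * M * κ) * Z.card) := by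
      have h2 : (2 * K : ℝ) ^ (19000 * M) = Real.exp (19000 * M * κ) := by
        rw [← hexpκ, ← Real.exp_nat_mul]
        push_cast
        ring_nf
      rw [← hκ] at hvol
      rw [← h2]
      exact hvol.trans (mul_le_mul_of_nonneg_left hAZ (Real.exp_pos _).le)
    have hpow : 20000 * κ ^ (1 + (6 : ℝ) / M) ≤ Real.log (2 * K₂) ^ (1 + (6 : ℝ) / M) := by
      have he : (1 : ℝ) ≤ 1 + 6 / M := by
        have : 0 ≤ (6 : ℝ) / M := by positivity
        linarith
      calc 20000 * κ ^ (1 + (6 : ℝ) / M)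
            ≤ (20000 : ℝ) ^ (1 + (6 : ℝ) / M) * κ ^ (1 + (6 : ℝ) / M) := by
            refine mul_le_mul_of_nonneg_right ?_ (Real.rpow_nonneg hκ0.le _)
            calc (20000 : ℝ) = 20000 ^ (1 : ℝ) := (Real.rpow_one _).symm
              _ ≤ 20000 ^ (1 + (6 : ℝ) / M) := Real.rpow_le_rpow_of_exponent_le (by norm_num) he
        _ = (20000 * κ) ^ (1 + (6 : ℝ) / M) := (Real.mul_rpow (by norm_num) hκ0.le).symm
        _ ≤ _ := by
          refine Real.rpow_le_rpow (by positivity) ?_ (by linarith)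
          refine le_trans ?_ hlog
          nlinarith
    obtain ⟨hy1, hy2⟩ := rpow_facts hκ69 hM
    have hκy : 0.69 * κ ≤ κ ^ (1 + (6 : ℝ) / M) := by
      rw [Real.rpow_add hκ0, Real.rpow_one]
      nlinarith
    refine h0.trans (h1.trans ?_)
    rw [← mul_assoc, ← Real.exp_add]
    refine mul_le_mul_of_nonneg_right (Real.exp_le_exp.2 ?_) (Nat.cast_nonneg _)
    have h5 : 1000 * (M : ℝ) * (20000 * κ ^ (1 + (6 : ℝ) / M)) ≤
        1000 * M * Real.log (2 * K₂) ^ (1 + (6 : ℝ) / M) :=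
      mul_le_mul_of_nonneg_left hpow (by positivity)
    refine le_trans ?_ h5
    have h6 : 0 ≤ κ ^ (1 + (6 : ℝ) / M) := Real.rpow_nonneg hκ0.le _
    have h7 : 19000 * (M : ℝ) * (0.69 * κ) ≤ 19000 * M * κ ^ (1 + (6 : ℝ) / M) :=
      mul_le_mul_of_nonneg_left hκy (by positivity)
    have h8 : 0 ≤ (M : ℝ) * κ ^ (1 + (6 : ℝ) / M) := by positivity
    nlinarith
  · intro a ha
    obtain ⟨w, hw, e⟩ := (Finset.mem_filter.1 ha).2
    exact ⟨w, hw, e⟩

end Pool.Agent.E8helper15.FR
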