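import Pool.Agent.E8helper15.FR.EqA
set_option autoImplicit false

/-! The polynomial Freiman-Ruzsa conjecture is equivalent to its dense case. -/

namespace Pool.Agent.E8helper15.FR

open Finset Pool.Agent.Y806.DF
open scoped Pointwise

/-- The conclusion of the polynomial Freiman-Ruzsa conjecture for the set `A` with the constant `C`:
`A` is covered by at most `C K ^ C` translates of a centred convex progression of dimension at most
`C (1 + log K)` and volume at most `|A|`. -/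
def Concl {Γ : Type*} [AddCommGroup Γ] (C K : ℝ) (A : Finset Γ) : Prop :=
  ∃ (d : ℕ) (B : Set (Fin d → ℝ)) (v : Fin d → Γ) (T : Finset Γ),
    (d : ℝ) ≤ C * (1 + Real.log K) ∧
    Convex ℝ B ∧ IsCompact B ∧ (interior B).Nonempty ∧ (∀ x ∈ B, -x ∈ B) ∧
    {x : Fin d → ℤ | (fun i => (x i : ℝ)) ∈ B}.ncard ≤ A.card ∧
    (T.card : ℝ) ≤ C * K ^ C ∧
    ∀ a ∈ A, ∃ t ∈ T, ∃ x : Fin d → ℤ, (fun i => (x i : ℝ)) ∈ B ∧ a = t + ∑ i, x i • v i

/-- `A` lies in a translate of a convex progression given by a symmetric convex body `B` of dimension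
at most `2100 M log (2 K)` with at most `exp (1000 M (log (2 K)) ^ (1 + 6 / M)) |A|` lattice points,
and the lattice points of `8 B` have distinct images. -/
def Dense {Γ : Type*} [AddCommGroup Γ] (M : ℕ) (K : ℝ) (A : Finset Γ) : Prop :=
  ∃ (d : ℕ) (B : Set (Fin d → ℝ)) (v : Fin d → Γ) (t : Γ),
    (d : ℝ) ≤ 2100 * M * Real.log (2 * K) ∧
    Convex ℝ B ∧ IsCompact B ∧ (interior B).Nonempty ∧ (∀ x ∈ B, -x ∈ B) ∧
    Set.InjOn (fun x : Fin d → ℤ => ∑ i, x i • v i)
      {x : Fin d → ℤ | (fun i => (x i : ℝ)) ∈ (8 : ℝ) • B} ∧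
    ({x : Fin d → ℤ | (fun i => (x i : ℝ)) ∈ B}.ncard : ℝ) ≤
      Real.exp (1000 * M * Real.log (2 * K) ^ (1 + (6 : ℝ) / M)) * A.card ∧
    ∀ a ∈ A, ∃ x : Fin d → ℤ, (fun i => (x i : ℝ)) ∈ B ∧ a = t + ∑ i, x i • v i

/-- `S ⊆ ℤ ^ n` lies in a symmetric convex body with at most
`exp (1000 M (log (2 K)) ^ (1 + 6 / M)) |S|` lattice points. -/
def DenseInBody (M : ℕ) (K : ℝ) {n : ℕ} (S : Finset (Fin n → ℤ)) : Prop :=
  ∃ B : Set (Fin n → ℝ),
    Convex ℝ B ∧ IsCompact B ∧ (interior B).Nonempty ∧ (∀ x ∈ B, -x ∈ B) ∧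
    ({x : Fin n → ℤ | (fun i => (x i : ℝ)) ∈ B}.ncard : ℝ) ≤
      Real.exp (1000 * M * Real.log (2 * K) ^ (1 + (6 : ℝ) / M)) * S.card ∧
    ∀ s ∈ S, (fun i => (s i : ℝ)) ∈ B

theorem hom_sum {Γ : Type*} [AddCommGroup Γ] {d : ℕ} (θ : (Fin d → ℤ) →+ Γ) (x : Fin d → ℤ) :
    θ x = ∑ i, x i • θ (Pi.single i 1) := by
  conv_lhs => rw [← Finset.univ_sum_single x]
  rw [map_sum]
  refine Finset.sum_congr rfl (fun i _ => ?_)
  have h : Pi.single i (x i) = x i • (Pi.single i 1 : Fin d → ℤ) := by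
    rw [← Pi.single_smul]
    simp
  rw [h, map_zsmul]

/-- the homomorphism attached to a vector -/
def lin {Γ : Type*} [AddCommGroup Γ] {d : ℕ} (v : Fin d → Γ) : (Fin d → ℤ) →+ Γ where
  toFun x := ∑ i, x i • v i
  map_zero' := by simp
  map_add' x y := by simp [add_smul, Finset.sum_add_distrib]

theorem transfer {Γ : Type*} [AddCommGroup Γ] [DecidableEq Γ] {K : ℝ} {A Z : Finset Γ}
    (hZne : Z.Nonempty) (hZA : Z ⊆ A)
    (hK : ((A + A).card : ℝ) ≤ K * A.card) (hK0 : 0 < K) {P : ℝ} (hP0 : 0 < P)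
    (hP : (A.card : ℝ) ≤ P * Z.card) {C K₂ : ℝ} (hC : Concl C K₂ Z) :
    ∃ (d : ℕ) (B : Set (Fin d → ℝ)) (v : Fin d → Γ) (T : Finset Γ),
      (d : ℝ) ≤ C * (1 + Real.log K₂) ∧
      Convex ℝ B ∧ IsCompact B ∧ (interior B).Nonempty ∧ (∀ x ∈ B, -x ∈ B) ∧
      {x : Fin d → ℤ | (fun i => (x i : ℝ)) ∈ B}.ncard ≤ A.card ∧
      (T.card : ℝ) ≤ K * P * (C * K₂ ^ C * 1024 ^ d) ∧
      ∀ a ∈ A, ∃ t ∈ T, ∃ x : Fin d → ℤ, (fun i => (x i : ℝ)) ∈ B ∧ a = t + ∑ i, x i • v i := by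
  classical
  obtain ⟨d, B, v, T, hd, hconv, hcomp, hint, hsymm, hvol, hT, hcov⟩ := hC
  have hB : Sym B := ⟨hconv, hcomp, hsymm, hint.mono interior_subset⟩
  have hZpos : 0 < Z.card := hZne.card_pos
  have hZA' : Z.card ≤ A.card := Finset.card_le_card hZA
  have hm : (1 : ℝ) ≤ A.card := by
    have : 1 ≤ A.card := by omega
    exact_mod_cast this
  obtain ⟨s, F, hs, hnum, hF, hFc⟩ := scale hB hm
  have h1 : num B 1 ≤ A.card := by
    have e : num B 1 = (lat B).ncard := by rw [num, one_smul]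
    rw [e]
    exact (show (lat B).ncard ≤ Z.card from hvol).trans hZA'
  have h2 : max 1 ((num B 1 : ℝ) / A.card) = 1 := by
    apply max_eq_left
    rw [div_le_one (by linarith)]
    exact_mod_cast h1
  rw [h2, mul_one] at hF
  have hlat2 : lat B ⊆ lat ((2 : ℝ) • B) := by
    have h3 := lat_mono (hB.mono (s := 1) (t := 2) (by norm_num) (by norm_num))
    rw [one_smul] at h3
    exact h3
  obtain ⟨⟨t0, f0⟩, hi, hpop⟩ := pigeon (T ×ˢ F) Z Z hZne
    (fun i a => ∃ w ∈ lat ((s / 2) • B), a = i.1 + lin v (i.2 + w)) (Finset.Subset.refl _) (by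
      intro a ha
      obtain ⟨t, ht, x, hx, e⟩ := hcov a ha
      obtain ⟨f, hf, w, hw, e2⟩ := hFc x (hlat2 hx)
      refine ⟨(t, f), Finset.mem_product.2 ⟨ht, hf⟩, w, hw, ?_⟩
      rw [e, ← e2]
      rfl)
  set Z' := Z.filter (fun a => ∃ w ∈ lat ((s / 2) • B), a = (t0, f0).1 + lin v ((t0, f0).2 + w))
    with hZ'
  have hZ'pos : 0 < Z'.card := by
    by_contra h
    have h0 : Z'.card = 0 := by omega
    rw [h0, mul_zero] at hpop
    omega
  have hZ'ne : Z'.Nonempty := Finset.card_pos.1 hZ'pos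
  have hZ'A : Z' ⊆ A := (Finset.filter_subset _ _).trans hZA
  have hC0 : (T.card : ℝ) * F.card ≤ C * K₂ ^ C * 1024 ^ d :=
    mul_le_mul hT hF (Nat.cast_nonneg _) (le_trans (Nat.cast_nonneg _) hT)
  have hAZ : ((A + Z').card : ℝ) ≤ (K * P * (C * K₂ ^ C * 1024 ^ d)) * Z'.card := by
    have h3 : ((A + Z').card : ℝ) ≤ (A + A).card := by
      exact_mod_cast Finset.card_le_card (Finset.add_subset_add_left hZ'A)
    have h4 : (Z.card : ℝ) ≤ T.card * F.card * Z'.card := by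
      have h5 : Z.card ≤ (T.card * F.card) * Z'.card := by
        rw [← Finset.card_product]
        exact hpop
      exact_mod_cast h5
    calc ((A + Z').card : ℝ) ≤ (A + A).card := h3
      _ ≤ K * A.card := hK
      _ ≤ K * (P * Z.card) := mul_le_mul_of_nonneg_left hP hK0.le
      _ ≤ K * (P * (T.card * F.card * Z'.card)) := by
        exact mul_le_mul_of_nonneg_left (mul_le_mul_of_nonneg_left h4 hP0.le) hK0.le
      _ ≤ K * (P * (C * K₂ ^ C * 1024 ^ d * Z'.card)) := by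
        refine mul_le_mul_of_nonneg_left (mul_le_mul_of_nonneg_left ?_ hP0.le) hK0.le
        exact mul_le_mul_of_nonneg_right hC0 (Nat.cast_nonneg _)
      _ = _ := by ring
  obtain ⟨F', -, hF', hcov'⟩ := Finset.ruzsa_covering_add hZ'ne hAZ
  obtain ⟨B', hB', hlatB'⟩ := fatten (hB.smul s)
  refine ⟨d, B', v, F', hd, hB'.1, hB'.2.1, hB'.2.2.1, hB'.2.2.2, ?_, hF', ?_⟩
  · have h5 : ((lat B').ncard : ℝ) ≤ A.card := by
      rw [hlatB']
      exact hnum
    exact_mod_cast h5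
  · intro a ha
    obtain ⟨f, hf, u, hu, rfl⟩ := Finset.mem_add.1 (hcov' ha)
    obtain ⟨z, hz, z', hz', rfl⟩ := Finset.mem_sub.1 hu
    obtain ⟨w, hw, e⟩ := (Finset.mem_filter.1 hz).2
    obtain ⟨w', hw', e'⟩ := (Finset.mem_filter.1 hz').2
    refine ⟨f, hf, w - w', ?_, ?_⟩
    · show w - w' ∈ lat B'
      rw [hlatB']
      have h6 := hB.sub (by positivity : 0 ≤ s / 2) (by positivity : 0 ≤ s / 2) hw hw'
      rw [add_halves] at h6
      exact h6
    · show f + (z - z') = f + lin v (w - w')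
      rw [e, e', map_add, map_add, map_sub]
      abel

/-- From a conclusion for the large part to a conclusion for the set, with all constants. -/
theorem assemble {Γ : Type*} [AddCommGroup Γ] [DecidableEq Γ] {K : ℝ} {A Z : Finset Γ}
    (hA : A.Nonempty) (hZne : Z.Nonempty) (hZA : Z ⊆ A)
    (hK : ((A + A).card : ℝ) ≤ K * A.card) {M : ℕ} (hM : 12 ≤ M)
    (hAZ : (A.card : ℝ) ≤ (2 * K) ^ (19000 * M) * Z.card) {C : ℝ} (hC : 0 < C)
    (hC' : Concl C ((2 * K) ^ (20000 * M)) Z) :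
    Concl (Real.exp (1 + 19000 * M + C + 20000 * M * C + 7 * (C * (1 + 20000 * M)))) K A := by
  have hM0 : (12 : ℝ) ≤ M := by exact_mod_cast hM
  obtain ⟨E, hE⟩ : ∃ E : ℝ, E = 1 + 19000 * M + C + 20000 * M * C + 7 * (C * (1 + 20000 * M)) :=
    ⟨_, rfl⟩
  rw [← hE]
  have hMC : 0 < (M : ℝ) * C := by positivity
  have hE0 : 0 < E := by rw [hE]; nlinarith
  have hK1 := one_le_of_doubling hA hK
  have hK0 : 0 < K := by linarith
  obtain ⟨d, B, v, T, hd, h1, h2, h3, h4, hvol, hT, hcov⟩ :=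
    transfer hZne hZA hK hK0 (by positivity) hAZ hC'
  obtain ⟨u, hu⟩ : ∃ u : ℝ, u = 1 + Real.log K := ⟨_, rfl⟩
  have hu1 : 1 ≤ u := by rw [hu]; linarith [Real.log_nonneg hK1]
  have hl2 : Real.log (2 * K) ≤ u := by
    rw [Real.log_mul (by norm_num) hK0.ne', hu]
    linarith [Real.log_two_lt_d9]
  have hl0 : 0 ≤ Real.log (2 * K) := Real.log_nonneg (by linarith)
  have hlogK : Real.log ((2 * K) ^ (20000 * M)) = 20000 * M * Real.log (2 * K) := by
    rw [Real.log_pow]; push_cast; ring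
  have hdu : (d : ℝ) ≤ C * (1 + 20000 * M) * u := by
    refine hd.trans ?_
    rw [hlogK, mul_assoc C]
    refine mul_le_mul_of_nonneg_left ?_ hC.le
    have h5 : 20000 * (M : ℝ) * Real.log (2 * K) ≤ 20000 * M * u :=
      mul_le_mul_of_nonneg_left hl2 (by positivity)
    linarith
  have hexpE : E ≤ Real.exp E := by linarith [Real.add_one_le_exp E]
  have hEu : C * (1 + 20000 * M) * u ≤ E * u := by
    refine mul_le_mul_of_nonneg_right ?_ (by linarith)
    rw [hE]
    nlinarith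
  refine ⟨d, B, v, T, ?_, h1, h2, h3, h4, hvol, ?_, hcov⟩
  · rw [← hu]
    exact hdu.trans (hEu.trans (mul_le_mul_of_nonneg_right hexpE (by linarith)))
  · have e2K : (2 * K : ℝ) = Real.exp (Real.log (2 * K)) := (Real.exp_log (by linarith)).symm
    have a1 : K ≤ Real.exp u := by
      have : Real.log K ≤ u := by rw [hu]; linarith
      rw [← Real.exp_log hK0]
      exact Real.exp_le_exp.2 this
    have a2 : (2 * K : ℝ) ^ (19000 * M) ≤ Real.exp (19000 * M * u) := by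
      rw [e2K, ← Real.exp_nat_mul]
      refine Real.exp_le_exp.2 ?_
      push_cast
      exact mul_le_mul_of_nonneg_left hl2 (by positivity)
    have a3 : C ≤ Real.exp (C * u) := by
      have h5 : C ≤ Real.exp C := by linarith [Real.add_one_le_exp C]
      refine h5.trans (Real.exp_le_exp.2 ?_)
      nlinarith
    have a4 : ((2 * K : ℝ) ^ (20000 * M)) ^ C ≤ Real.exp (20000 * M * C * u) := by
      rw [Real.rpow_def_of_pos (by positivity), hlogK]
      refine Real.exp_le_exp.2 ?_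
      have := mul_le_mul_of_nonneg_left hl2 (show 0 ≤ 20000 * (M : ℝ) * C by positivity)
      linarith
    have a5 : (1024 : ℝ) ^ d ≤ Real.exp (7 * (C * (1 + 20000 * M)) * u) := by
      have h6 : (1024 : ℝ) ≤ Real.exp 7 := by
        rw [← Real.log_le_iff_le_exp (by norm_num)]
        rw [show (1024 : ℝ) = 2 ^ 10 by norm_num, Real.log_pow]
        push_cast
        linarith [Real.log_two_lt_d9]
      calc (1024 : ℝ) ^ d ≤ (Real.exp 7) ^ d := pow_le_pow_left₀ (by norm_num) h6 _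
        _ = Real.exp (d * 7) := by rw [← Real.exp_nat_mul]
        _ ≤ _ := by
          refine Real.exp_le_exp.2 ?_
          nlinarith
    have a6 : K * (2 * K : ℝ) ^ (19000 * M) * (C * ((2 * K : ℝ) ^ (20000 * M)) ^ C * 1024 ^ d) ≤
        Real.exp (E * u) := by
      calc K * (2 * K : ℝ) ^ (19000 * M) * (C * ((2 * K : ℝ) ^ (20000 * M)) ^ C * 1024 ^ d)
          ≤ Real.exp u * Real.exp (19000 * M * u) *
            (Real.exp (C * u) * Real.exp (20000 * M * C * u) *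
              Real.exp (7 * (C * (1 + 20000 * M)) * u)) := by
            gcongr
        _ = Real.exp (E * u) := by
            rw [← Real.exp_add, ← Real.exp_add, ← Real.exp_add, ← Real.exp_add, hE]
            congr 1
            ring
    refine hT.trans (a6.trans ?_)
    have a7 : Real.exp (E * u) = Real.exp E * K ^ E := by
      rw [Real.rpow_def_of_pos hK0, ← Real.exp_add, hu]
      congr 1
      ring
    rw [a7]
    refine mul_le_mul_of_nonneg_left ?_ (Real.exp_pos _).le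
    exact Real.rpow_le_rpow_of_exponent_le hK1 hexpE

/-- in one torsion-free group -/
theorem pfr_iff {Γ : Type*} [AddCommGroup Γ] [DecidableEq Γ]
    (htf : ∀ (n : ℕ) (x : Γ), n ≠ 0 → n • x = 0 → x = 0) {M : ℕ} (hM : 12 ≤ M) :
    (∃ C : ℝ, 0 < C ∧ ∀ (K : ℝ) (A : Finset Γ), A.Nonempty →
      ((A + A).card : ℝ) ≤ K * (A.card : ℝ) → Concl C K A) ↔
    (∃ C : ℝ, 0 < C ∧ ∀ (K : ℝ) (A : Finset Γ), A.Nonempty →
      ((A + A).card : ℝ) ≤ K * (A.card : ℝ) → Dense M K A → Concl C K A) := by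
  constructor
  · rintro ⟨C, hC, h⟩
    exact ⟨C, hC, fun K A hA hK _ => h K A hA hK⟩
  rintro ⟨C, hC, h⟩
  refine ⟨Real.exp (1 + 19000 * M + C + 20000 * M * C + 7 * (C * (1 + 20000 * M))),
    Real.exp_pos _, fun K A hA hK => ?_⟩
  obtain ⟨Z, r, B, θ, t, hZne, hZA, hAZ, hZZ, hr, hB, hinj, hvol, hcov⟩ :=
    dense_part htf hA hK hM rfl
  refine assemble hA hZne hZA hK hM hAZ hC (h _ Z hZne hZZ ?_)
  refine ⟨r, B, fun i => θ (Pi.single i 1), t, hr, hB.1, hB.2.1, hB.2.2.1, hB.2.2.2, ?_, hvol, ?_⟩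
  · intro x hx y hy e
    refine hinj hx hy ?_
    rw [hom_sum θ x, hom_sum θ y]
    exact e
  · intro a ha
    obtain ⟨x, hx, e⟩ := hcov a ha
    exact ⟨x, hx, by rw [e, hom_sum θ x]⟩

/-- the lattice case implies the case of all torsion-free groups -/
theorem pfr_lattice {M : ℕ} (hM : 12 ≤ M) {C : ℝ} (hC : 0 < C)
    (h : ∀ (n : ℕ) (K : ℝ) (S : Finset (Fin n → ℤ)), S.Nonempty →
      ((S + S).card : ℝ) ≤ K * (S.card : ℝ) → (n : ℝ) ≤ 2100 * M * Real.log (2 * K) →
      DenseInBody M K S → Concl C K S)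
    {Γ : Type*} [AddCommGroup Γ] [DecidableEq Γ]
    (htf : ∀ (n : ℕ) (x : Γ), n ≠ 0 → n • x = 0 → x = 0) {K : ℝ} {A : Finset Γ} (hA : A.Nonempty)
    (hK : ((A + A).card : ℝ) ≤ K * (A.card : ℝ)) :
    Concl (Real.exp (1 + 19000 * M + C + 20000 * M * C + 7 * (C * (1 + 20000 * M)))) K A := by
  classical
  obtain ⟨Z, r, B, θ, t, hZne, hZA, hAZ, hZZ, hr, hB, hinj, hvol, hcov⟩ :=
    dense_part htf hA hK hM rfl
  refine assemble hA hZne hZA hK hM hAZ hC ?_
  have hBfin : (lat B).Finite := lat_finite hB.2.1.isBounded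
  have hS8 : lat B ⊆ lat ((8 : ℝ) • B) := by
    have h3 := lat_mono ((body_sym hB).mono (s := 1) (t := 8) (by norm_num) (by norm_num))
    rw [one_smul] at h3
    exact h3
  have hS2 : lat ((1 + 1 : ℝ) • B) ⊆ lat ((8 : ℝ) • B) :=
    lat_mono ((body_sym hB).mono (by norm_num) (by norm_num))
  obtain ⟨S, hS⟩ : ∃ S : Finset (Fin r → ℤ), ∀ x, x ∈ S ↔ x ∈ lat B ∧ t + θ x ∈ Z := by
    refine ⟨hBfin.toFinset.filter (fun x => t + θ x ∈ Z), fun x => ?_⟩
    rw [Finset.mem_filter, Set.Finite.mem_toFinset]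
  have hZS : Z = S.image (fun x => t + θ x) := by
    ext a
    rw [Finset.mem_image]
    constructor
    · intro ha
      obtain ⟨x, hx, e⟩ := hcov a ha
      exact ⟨x, (hS x).2 ⟨hx, e ▸ ha⟩, e.symm⟩
    · rintro ⟨x, hx, rfl⟩
      exact ((hS x).1 hx).2
  have hcard : Z.card = S.card := by
    rw [hZS]
    refine Finset.card_image_of_injOn ?_
    intro x hx y hy e
    exact hinj (hS8 ((hS x).1 hx).1) (hS8 ((hS y).1 hy).1) (add_left_cancel e)
  have hcard2 : (S + S).card ≤ (Z + Z).card := by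
    refine Finset.card_le_card_of_injOn (fun v => (t + t) + θ v) ?_ ?_
    · intro v hv
      obtain ⟨a, ha, b, hb, rfl⟩ := Finset.mem_add.1 (Finset.mem_coe.1 hv)
      rw [Finset.mem_coe]
      have e : (t + t) + θ (a + b) = (t + θ a) + (t + θ b) := by rw [map_add]; abel
      show (t + t) + θ (a + b) ∈ Z + Z
      rw [e]
      exact Finset.add_mem_add ((hS a).1 ha).2 ((hS b).1 hb).2
    · have key : ∀ v ∈ S + S, v ∈ lat ((8 : ℝ) • B) := by
        intro v hv
        obtain ⟨a, ha, b, hb, rfl⟩ := Finset.mem_add.1 hv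
        refine hS2 ((body_sym hB).add (by norm_num) (by norm_num) ?_ ?_)
        · rw [one_smul]; exact ((hS a).1 ha).1
        · rw [one_smul]; exact ((hS b).1 hb).1
      intro v hv w hw e
      exact hinj (key v hv) (key w hw) (add_left_cancel e)
  have hSne : S.Nonempty := by
    rw [← Finset.card_pos, ← hcard]
    exact hZne.card_pos
  have hSS : ((S + S).card : ℝ) ≤ (2 * K) ^ (20000 * M) * S.card := by
    rw [← hcard]
    exact le_trans (by exact_mod_cast hcard2) hZZ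
  obtain ⟨d', B', v', T', hd', h1, h2, h3, h4, hvol', hT', hcov'⟩ := h r _ S hSne hSS hr
    ⟨B, hB.1, hB.2.1, hB.2.2.1, hB.2.2.2, by rw [← hcard]; exact hvol,
      fun s hs => ((hS s).1 hs).1⟩
  refine ⟨d', B', fun i => θ (v' i), T'.image (fun s => t + θ s), hd', h1, h2, h3, h4,
    by rw [hcard]; exact hvol', ?_, ?_⟩
  · refine le_trans ?_ hT'
    exact_mod_cast Finset.card_image_le
  · intro a ha
    rw [hZS] at ha
    obtain ⟨x, hx, rfl⟩ := Finset.mem_image.1 ha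
    obtain ⟨s', hs', x', hx', e⟩ := hcov' x hx
    refine ⟨t + θ s', Finset.mem_image_of_mem _ hs', x', hx', ?_⟩
    rw [e, map_add, map_sum, add_assoc]
    congr 2
    refine Finset.sum_congr rfl (fun i _ => ?_)
    rw [map_zsmul]

end Pool.Agent.E8helper15.FR
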