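import Pool.Agent.E8helper15.FR.Grow
import Pool.Agent.E8helper15.FR.Core
set_option autoImplicit false

/-! The choice of the parameters. -/

namespace Pool.Agent.E8helper15.FR

open Finset H112
open scoped Pointwise

theorem rpow_facts {κ : ℝ} (hκ : 0.69 < κ) {M : ℕ} (hM : 12 ≤ M) :
    κ ^ ((6 : ℝ) / M) ≤ 1 + κ ∧ 0.69 ≤ κ ^ ((6 : ℝ) / M) := by
  have hM0 : (12 : ℝ) ≤ M := by exact_mod_cast hM
  have he0 : 0 ≤ (6 : ℝ) / M := by positivity
  have he1 : (6 : ℝ) / M ≤ 1 := by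
    rw [div_le_one (by linarith)]; linarith
  have hκ0 : 0 < κ := by linarith
  constructor
  · calc κ ^ ((6 : ℝ) / M) ≤ (1 + κ) ^ ((6 : ℝ) / M) :=
        Real.rpow_le_rpow hκ0.le (by linarith) he0
      _ ≤ (1 + κ) ^ (1 : ℝ) := Real.rpow_le_rpow_of_exponent_le (by linarith) he1
      _ = 1 + κ := Real.rpow_one _
  · calc (0.69 : ℝ) = 0.69 ^ (1 : ℝ) := (Real.rpow_one _).symm
      _ ≤ 0.69 ^ ((6 : ℝ) / M) :=
        Real.rpow_le_rpow_of_exponent_ge (by norm_num) (by norm_num) he1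
      _ ≤ κ ^ ((6 : ℝ) / M) := Real.rpow_le_rpow (by norm_num) hκ.le he0

/-- the growth at the scale `2 ^ (2 j + 1)`, `j = 2 L + 20` -/
theorem growth_num {κ : ℝ} (hκ : 0.69 < κ) {M : ℕ} (hM : 12 ≤ M) {L : ℕ}
    (hL : (2 : ℝ) ^ L ≤ 2 * (κ * M)) :
    (1 + 1 / (M : ℝ)) ^ (4 * L + 42) ≤ 170 * κ ^ ((6 : ℝ) / M) := by
  have hM0 : (12 : ℝ) ≤ M := by exact_mod_cast hM
  have hMp : (0 : ℝ) < M := by linarith
  have hκ0 : 0 < κ := by linarith
  have hlog2 : (0.6931471803 : ℝ) < Real.log 2 := Real.log_two_gt_d9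
  -- exponential bound
  have h1 : (1 + 1 / (M : ℝ)) ^ (4 * L + 42) ≤ Real.exp ((4 * L + 42) / M) := by
    have h2 : 1 + 1 / (M : ℝ) ≤ Real.exp (1 / M) := by
      have := Real.add_one_le_exp (1 / (M : ℝ))
      linarith
    calc (1 + 1 / (M : ℝ)) ^ (4 * L + 42) ≤ (Real.exp (1 / M)) ^ (4 * L + 42) :=
          pow_le_pow_left₀ (by positivity) h2 _
      _ = Real.exp ((4 * L + 42) / M) := by
        rw [← Real.exp_nat_mul]
        congr 1
        push_cast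
        ring
  -- the exponent
  have h3 : Real.log ((2 : ℝ) ^ L) ≤ Real.log (2 * (κ * M)) :=
    Real.log_le_log (by positivity) hL
  have h4 : Real.log ((2 : ℝ) ^ L) = L * Real.log 2 := by rw [Real.log_pow]
  have h5 : Real.log (2 * (κ * M)) = Real.log κ + Real.log (2 * M) := by
    rw [← Real.log_mul (by linarith) (by positivity)]
    congr 1; ring
  have h6 : Real.log (2 * (M : ℝ)) ≤ Real.log 24 + (M / 12 - 1) := by
    have e : (2 * (M : ℝ)) = 24 * (M / 12) := by ring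
    rw [e, Real.log_mul (by norm_num) (by positivity)]
    have := Real.log_le_sub_one_of_pos (show (0 : ℝ) < M / 12 by positivity)
    linarith
  have h24 : Real.log 24 ≤ 3.18 := by
    rw [Real.log_le_iff_le_exp (by norm_num)]
    have e1 : Real.exp 3.18 = Real.exp 1 ^ 3 * Real.exp 0.18 := by
      rw [← Real.exp_nat_mul, ← Real.exp_add]; norm_num
    rw [e1]
    have e2 : (2.718281828 : ℝ) ≤ Real.exp 1 := by have := Real.exp_one_gt_d9; linarith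
    have e3 : (1.1962 : ℝ) ≤ Real.exp 0.18 := by
      have := Real.quadratic_le_exp_of_nonneg (show (0 : ℝ) ≤ 0.18 by norm_num)
      linarith
    calc (24 : ℝ) ≤ 2.718281828 ^ 3 * 1.1962 := by norm_num
      _ ≤ Real.exp 1 ^ 3 * Real.exp 0.18 :=
        mul_le_mul (pow_le_pow_left₀ (by norm_num) e2 3) e3 (by norm_num) (by positivity)
  have h7 : (4 * L + 42) / (M : ℝ) ≤ 3.5 + (6 / M) * Real.log κ + 1.6 := by
    have a1 : (4 : ℝ) * L ≤ 6 * (Real.log κ + Real.log (2 * M)) := by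
      have : (4 : ℝ) * L ≤ 6 * (L * Real.log 2) := by
        have hL0 : (0 : ℝ) ≤ L := Nat.cast_nonneg L
        nlinarith
      rw [← h4] at this
      linarith
    have a2 : (4 * (L : ℝ) + 42) ≤ 6 * Real.log κ + 6 * (3.18 + (M / 12 - 1)) + 42 := by
      linarith
    rw [div_le_iff₀ hMp]
    have a3 : (3.5 + (6 / M) * Real.log κ + 1.6) * (M : ℝ) = 5.1 * M + 6 * Real.log κ := by
      field_simp
      ring
    rw [a3]
    linarith
  have h8 : Real.exp (3.5 + (6 / M) * Real.log κ + 1.6) = Real.exp 5.1 * κ ^ ((6 : ℝ) / M) := by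
    rw [Real.rpow_def_of_pos hκ0, ← Real.exp_add]
    congr 1; ring
  have h9 : Real.exp 5.1 ≤ 170 := by
    have e1 : Real.exp 5.1 = Real.exp 1 ^ 5 * Real.exp 0.1 := by
      rw [← Real.exp_nat_mul, ← Real.exp_add]; norm_num
    rw [e1]
    have e2 : Real.exp 1 ≤ 2.7182818286 := Real.exp_one_lt_d9.le
    have e3 : Real.exp 0.1 ≤ 1.1112 := by
      have h := Real.exp_bound_div_one_sub_of_interval (show (0 : ℝ) ≤ 0.1 by norm_num)
        (show (0.1 : ℝ) < 1 by norm_num)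
      refine h.trans ?_
      norm_num
    calc Real.exp 1 ^ 5 * Real.exp 0.1 ≤ 2.7182818286 ^ 5 * 1.1112 :=
          mul_le_mul (pow_le_pow_left₀ (Real.exp_pos 1).le e2 5) e3 (Real.exp_pos _).le (by positivity)
      _ ≤ 170 := by norm_num
  have hpos : 0 ≤ κ ^ ((6 : ℝ) / M) := Real.rpow_nonneg hκ0.le _
  calc (1 + 1 / (M : ℝ)) ^ (4 * L + 42) ≤ Real.exp ((4 * L + 42) / M) := h1
    _ ≤ Real.exp (3.5 + (6 / M) * Real.log κ + 1.6) := Real.exp_le_exp.2 h7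
    _ = Real.exp 5.1 * κ ^ ((6 : ℝ) / M) := h8
    _ ≤ 170 * κ ^ ((6 : ℝ) / M) := mul_le_mul_of_nonneg_right h9 hpos

variable {G : Type*} [AddCommGroup G]

/-- the Bohr set, with all parameters chosen -/
theorem bohr_exists [AddGroup.FG G] [DecidableEq G] {K : ℝ} {A : Finset G} (hA : A.Nonempty)
    (hK : ((A + A).card : ℝ) ≤ K * A.card) (hK1 : 1 ≤ K) {κ : ℝ} (hκ : κ = Real.log (2 * K))
    {M : ℕ} (hM : 12 ≤ M) :
    ∃ (S : Set (G →+ UnitAddCircle)) (X : Finset G) (ρ : ℝ),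
      (bohr S (1 / 6)).Finite ∧
      ((bohr S (1 / 6)).ncard : ℝ) ≤ Real.exp (1000 * M * κ ^ (1 + (6 : ℝ) / M)) * A.card ∧
      (∀ a ∈ A, ∃ x ∈ X, a - x ∈ bohr S ρ) ∧ 0 ≤ ρ ∧ ρ ≤ 1 / 12 ∧
      K * X.card ≤ Real.exp (4.3 * M * κ) := by
  classical
  have hM0 : (12 : ℝ) ≤ M := by exact_mod_cast hM
  have hMp : (0 : ℝ) < M := by linarith
  have hK0 : (0 : ℝ) < K := by linarith
  have hκlog2 : Real.log 2 ≤ κ := by
    rw [hκ]; exact Real.log_le_log (by norm_num) (by linarith)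
  have hκ69 : (0.69 : ℝ) < κ := by
    have := Real.log_two_gt_d9
    linarith
  have hκ0 : 0 < κ := by linarith
  have hlogK : Real.log K ≤ κ := by
    rw [hκ]; exact Real.log_le_log hK0 (by linarith)
  obtain ⟨x, hx⟩ : ∃ x : ℝ, x = κ * M := ⟨_, rfl⟩
  have hx8 : 8.28 ≤ x := by rw [hx]; nlinarith
  obtain ⟨n, hn1, hn2⟩ := exists_nat_pow_near (show (1 : ℝ) ≤ x by linarith) (one_lt_two)
  obtain ⟨L, hLdef⟩ : ∃ L : ℕ, L = n + 1 := ⟨_, rfl⟩
  have hL : x ≤ 2 ^ L := by rw [hLdef]; exact hn2.le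
  have hL' : (2 : ℝ) ^ L ≤ 2 * x := by rw [hLdef, pow_succ]; linarith
  obtain ⟨j, hj⟩ : ∃ j : ℕ, j = 2 * L + 20 := ⟨_, rfl⟩
  obtain ⟨y, hy⟩ : ∃ y : ℝ, y = κ ^ ((6 : ℝ) / M) := ⟨_, rfl⟩
  obtain ⟨hy1, hy2⟩ := rpow_facts hκ69 hM
  rw [← hy] at hy1 hy2
  obtain ⟨b, hb⟩ : ∃ b : ℝ, b = 340 * x * y := ⟨_, rfl⟩
  have hb0 : 0 ≤ b := by rw [hb]; positivity
  have hbx : b ≤ 72 * x ^ 2 := by
    have h1 : y ≤ 0.21 * x := by
      have h2 : κ ≤ x / 12 := by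
        rw [hx, le_div_iff₀ (by norm_num)]
        nlinarith
      nlinarith
    rw [hb]
    nlinarith
  have h2j : (2 : ℝ) ^ 20 * x ^ 2 ≤ 2 ^ j := by
    have e : (2 : ℝ) ^ j = 2 ^ 20 * (2 ^ L) ^ 2 := by
      rw [hj]; ring
    rw [e]
    have : x ^ 2 ≤ ((2 : ℝ) ^ L) ^ 2 := pow_le_pow_left₀ (by linarith) hL 2
    nlinarith
  obtain ⟨p₁, p₂, hp₁, hp₂, hs₁, hs₂, hH₁, hH₂, hgrow⟩ :=
    exists_pair hA hK (M := M) (by omega) (2 * j + 1)
  rw [← hκ] at hH₁ hH₂ hgrow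
  obtain ⟨D, hD⟩ : ∃ D : ℝ, D = 2 * M * κ := ⟨_, rfl⟩
  have hD0 : 0 ≤ D := by rw [hD]; positivity
  have hG : 2 * M * κ * ((1 + 1 / (M : ℝ)) ^ (2 * j + 2)) ≤ b := by
    have h1 := growth_num hκ69 hM (L := L) (by rw [← hx]; exact hL')
    have e : 2 * j + 2 = 4 * L + 42 := by omega
    rw [e, ← hy] at *
    have h2 : 0 ≤ 2 * M * κ := by positivity
    calc 2 * M * κ * ((1 + 1 / (M : ℝ)) ^ (4 * L + 42)) ≤ 2 * M * κ * (170 * y) :=
          mul_le_mul_of_nonneg_left h1 h2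
      _ = b := by rw [hb, hx]; ring
  have hone : (1 : ℝ) ≤ 1 + 1 / (M : ℝ) := by
    have : 0 ≤ 1 / (M : ℝ) := by positivity
    linarith
  have hMκ : 0 ≤ 2 * M * κ := by positivity
  -- growth bounds
  have hg : ∀ i ≤ 2 * j + 1, H ((p₁ * p₂) ^ (2 ^ i)) ≤ (H p₁ + H p₂) / 2 + b := by
    intro i hi
    refine (hgrow i hi).trans ?_
    have h1 : (1 + 1 / (M : ℝ)) ^ (i + 1) ≤ (1 + 1 / (M : ℝ)) ^ (2 * j + 2) :=
      pow_le_pow_right₀ hone (by omega)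
    have h2 : 2 * M * κ * ((1 + 1 / (M : ℝ)) ^ (i + 1) - 1) ≤ 2 * M * κ * (1 + 1 / (M : ℝ)) ^ (2 * j + 2) :=
      mul_le_mul_of_nonneg_left (by linarith) hMκ
    linarith
  have hg1 : H ((p₁ * p₂) ^ (2 * 2 ^ j * 2 ^ j)) ≤ (H p₁ + H p₂) / 2 + b := by
    have e1 : 2 * 2 ^ j * 2 ^ j = 2 ^ (2 * j + 1) := by ring
    rw [e1]
    exact hg _ le_rfl
  obtain ⟨ε, hε⟩ : ∃ ε : ℝ, ε = b / 2 ^ j := ⟨_, rfl⟩
  have hε0 : 0 ≤ ε := by rw [hε]; positivity
  have hqlaw : Law (p₁ * p₂) := hp₁.mul hp₂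
  have hinc : H ((p₁ * p₂) ^ (2 ^ j + 1)) - H (p₁ * p₂) ≤ ((2 ^ j : ℕ) : ℝ) * ε := by
    have h1 : H ((p₁ * p₂) ^ (2 ^ j + 1)) ≤ H ((p₁ * p₂) ^ (2 ^ (j + 1))) := by
      have e1 : (p₁ * p₂) ^ (2 ^ (j + 1)) = (p₁ * p₂) ^ (2 ^ j + 1) * (p₁ * p₂) ^ (2 ^ j - 1) := by
        rw [← pow_add]; congr 1
        have h1 : 2 ^ (j + 1) = 2 ^ j + 2 ^ j := by ring
        have h2 : 1 ≤ 2 ^ j := Nat.one_le_two_pow
        omega
      rw [e1]
      exact H_le_mul (hqlaw.pow _) (hqlaw.pow _)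
    have h2 := hg (j + 1) (by omega)
    have h3 : (H p₁ + H p₂) / 2 ≤ H (p₁ * p₂) := by
      have a1 : H p₁ ≤ H (p₁ * p₂) := H_le_mul hp₁ hp₂
      have a2 : H p₂ ≤ H (p₁ * p₂) := by
        rw [mul_comm]; exact H_le_mul hp₂ hp₁
      linarith
    have h4' : ((2 ^ j : ℕ) : ℝ) * ε = b := by
      rw [hε]; push_cast
      field_simp
    rw [h4']
    linarith
  have hY : 2 * b + 2 * Real.log K + 2 * D + 2 ≤ 2 ^ j := by
    have h1 : D = 2 * x := by rw [hD, hx]; ring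
    have h2 : κ ≤ x / 12 := by
      rw [hx, le_div_iff₀ (by norm_num)]
      nlinarith
    nlinarith
  have h4 : (1 / 4 : ℝ) ^ (2 ^ j) ≤ Real.exp (-(2 * b + 2 * Real.log K + 2 * D)) / 4 := by
    have h1 : (1 / 4 : ℝ) ≤ Real.exp (-1) := by
      have h2 := Real.exp_one_lt_d9
      rw [Real.exp_neg]
      rw [← one_div]
      exact one_div_le_one_div_of_le (Real.exp_pos 1) (by linarith)
    have h2 : (4 : ℝ) ≤ Real.exp 2 := by
      have h3 := Real.exp_one_gt_d9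
      have e : Real.exp 2 = Real.exp 1 ^ 2 := by rw [← Real.exp_nat_mul]; norm_num
      rw [e]; nlinarith
    have h3 : (1 / 4 : ℝ) ^ (2 ^ j) ≤ Real.exp (-(2 ^ j : ℝ)) := by
      calc (1 / 4 : ℝ) ^ (2 ^ j) ≤ (Real.exp (-1)) ^ (2 ^ j) := pow_le_pow_left₀ (by norm_num) h1 _
        _ = Real.exp (-(2 ^ j : ℝ)) := by
          rw [← Real.exp_nat_mul]; push_cast; congr 1; ring
    rw [le_div_iff₀ (by norm_num)]
    calc (1 / 4 : ℝ) ^ (2 ^ j) * 4 ≤ Real.exp (-(2 ^ j : ℝ)) * Real.exp 2 :=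
          mul_le_mul h3 h2 (by norm_num) (Real.exp_pos _).le
      _ = Real.exp (-(2 ^ j : ℝ) + 2) := by rw [← Real.exp_add]
      _ ≤ Real.exp (-(2 * b + 2 * Real.log K + 2 * D)) := Real.exp_le_exp.2 (by linarith)
  obtain ⟨S, X, hfin, hsize, hX, hXcard⟩ :=
    core' hA hK hK1 j hp₁ hp₂ hs₁ hs₂ (b := b) (D := D) (ε := ε) (by rw [hD]; exact hH₁) hg1 hinc h4
  refine ⟨S, X, 4 * Real.sqrt ε, hfin, ?_, hX, by positivity, ?_, ?_⟩
  · refine hsize.trans (mul_le_mul_of_nonneg_right ?_ (Nat.cast_nonneg _))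
    have h8 : (8 : ℝ) ≤ Real.exp 3 := by
      have h3 := Real.exp_one_gt_d9
      have e : Real.exp 3 = Real.exp 1 ^ 3 := by rw [← Real.exp_nat_mul]; norm_num
      rw [e]
      calc (8 : ℝ) = 2 ^ 3 := by norm_num
        _ ≤ Real.exp 1 ^ 3 := pow_le_pow_left₀ (by norm_num) (by linarith) 3
    calc 8 * Real.exp (2 * b + 2 * Real.log K + 2 * D)
        ≤ Real.exp 3 * Real.exp (2 * b + 2 * Real.log K + 2 * D) :=
          mul_le_mul_of_nonneg_right h8 (Real.exp_pos _).le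
      _ = Real.exp (3 + (2 * b + 2 * Real.log K + 2 * D)) := by rw [← Real.exp_add]
      _ ≤ Real.exp (1000 * M * κ ^ (1 + (6 : ℝ) / M)) := by
        apply Real.exp_le_exp.2
        have e1 : κ ^ (1 + (6 : ℝ) / M) = κ * y := by
          rw [Real.rpow_add hκ0, Real.rpow_one, hy]
        rw [e1]
        have e2 : 1000 * (M : ℝ) * (κ * y) = 1000 * x * y := by rw [hx]; ring
        rw [e2, hb, hD]
        have e3 : 2 * (2 * (M : ℝ) * κ) = 4 * x := by rw [hx]; ring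
        rw [e3]
        have h2 : κ ≤ x / 12 := by
          rw [hx, le_div_iff₀ (by norm_num)]
          nlinarith
        have h3 : 0.69 * x ≤ x * y := by nlinarith
        nlinarith
  · -- the radius
    have h1 : ε ≤ (1 / 48) ^ 2 := by
      rw [hε, div_le_iff₀ (by positivity)]
      nlinarith
    have h2 : Real.sqrt ε ≤ 1 / 48 := by
      rw [show (1 / 48 : ℝ) = Real.sqrt ((1 / 48) ^ 2) from (Real.sqrt_sq (by norm_num)).symm]
      exact Real.sqrt_le_sqrt h1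
    linarith
  · -- the number of translates
    have hKe : K ≤ Real.exp κ := by
      rw [hκ, Real.exp_log (by linarith)]; linarith
    calc K * X.card ≤ K * (K * Real.exp (2 * D + 1)) := mul_le_mul_of_nonneg_left hXcard hK0.le
      _ ≤ Real.exp κ * (Real.exp κ * Real.exp (2 * D + 1)) := by gcongr
      _ = Real.exp (κ + (κ + (2 * D + 1))) := by rw [← Real.exp_add, ← Real.exp_add]
      _ ≤ Real.exp (4.3 * M * κ) := by
        apply Real.exp_le_exp.2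
        have e3 : 2 * D = 4 * x := by rw [hD, hx]; ring
        have e4 : 4.3 * (M : ℝ) * κ = 4.3 * x := by rw [hx]; ring
        rw [e3, e4]
        have h2 : κ ≤ x / 12 := by
          rw [hx, le_div_iff₀ (by norm_num)]
          nlinarith
        linarith

end Pool.Agent.E8helper15.FR
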