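import Pool.Agent.E8helper15.FR.Struct
import Pool.Agent.E8helper15.FR.Num
import Pool.Agent.H112R2.Final
set_option autoImplicit false

/-! Polynomially many translates: torsion-free groups. -/

namespace Pool.Agent.E8helper15.FR

open Finset H112 Pool.Agent.Y806.DF
open scoped Pointwise

theorem one_le_of_doubling {G : Type*} [AddCommGroup G] [DecidableEq G] {K : ℝ} {A : Finset G}
    (hA : A.Nonempty) (hK : ((A + A).card : ℝ) ≤ K * A.card) : 1 ≤ K := by
  have hApos : (0 : ℝ) < A.card := by exact_mod_cast hA.card_pos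
  have h1 : (A.card : ℝ) ≤ (A + A).card := by
    exact_mod_cast Finset.card_le_card_add_right hA
  nlinarith

/-- torsion-free groups, all the information -/
theorem poly_tf {G : Type*} [AddCommGroup G] [DecidableEq G]
    (htf : ∀ (n : ℕ) (x : G), n ≠ 0 → n • x = 0 → x = 0) {K : ℝ} {A : Finset G}
    (hA : A.Nonempty) (hK : ((A + A).card : ℝ) ≤ K * A.card) {M : ℕ} (hM : 12 ≤ M) :
    ∃ (r : ℕ) (B : Set (Fin r → ℝ)) (θ : (Fin r → ℤ) →+ G) (T : Finset G),
      (r : ℝ) ≤ 2100 * M * Real.log (2 * K) ∧ Body B ∧ Set.InjOn θ (lat B) ∧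
      ((lat B).ncard : ℝ) ≤
        Real.exp (1000 * M * Real.log (2 * K) ^ (1 + (6 : ℝ) / M)) * A.card ∧
      (T.card : ℝ) ≤ (2 * K) ^ (800 * M) ∧ ∀ a ∈ A, ∃ t ∈ T, ∃ x ∈ lat B, a = t + θ x := by
  classical
  have hK1 := one_le_of_doubling hA hK
  have hK0 : 0 < K := by linarith
  obtain ⟨κ, hκ⟩ : ∃ κ : ℝ, κ = Real.log (2 * K) := ⟨_, rfl⟩
  have hM0 : (12 : ℝ) ≤ M := by exact_mod_cast hM
  have hκ69 : (0.69 : ℝ) < κ := by
    have h1 := Real.log_two_gt_d9
    have h2 : Real.log 2 ≤ κ := by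
      rw [hκ]; exact Real.log_le_log (by norm_num) (by linarith)
    linarith
  -- reduction to finitely generated groups
  obtain ⟨Γ, hΓ⟩ : ∃ Γ : AddSubgroup G, Γ = AddSubgroup.closure (A : Set G) := ⟨_, rfl⟩
  obtain ⟨A', hA'⟩ := exists_model A Γ (fun a ha => by
    rw [hΓ]; exact AddSubgroup.subset_closure ha)
  have hinj : Function.Injective Γ.subtype := Γ.subtype_injective
  haveI : AddGroup.FG Γ := by
    rw [AddGroup.fg_iff_addSubgroup_fg]
    exact ⟨A, hΓ.symm⟩
  have hA'ne : A'.Nonempty := by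
    rw [← hA'] at hA; exact Finset.image_nonempty.1 hA
  have hcard : A'.card = A.card := by
    rw [← hA', Finset.card_image_of_injective _ hinj]
  have hcard2 : (A' + A').card = (A + A).card := by
    rw [← hA', ← Finset.image_add, Finset.card_image_of_injective _ hinj]
  have hK' : ((A' + A').card : ℝ) ≤ K * A'.card := by rw [hcard2, hcard]; exact hK
  have htf' : ∀ (n : ℕ) (x : Γ), n ≠ 0 → n • x = 0 → x = 0 := by
    intro n x hn hx
    have h1 := congrArg Γ.subtype hx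
    rw [map_nsmul, map_zero] at h1
    exact hinj (by rw [map_zero]; exact htf n _ hn h1)
  obtain ⟨S, X, ρ, hfin, hsize, hX, hρ0, hρ, hKX⟩ := bohr_exists hA'ne hK' hK1 hκ hM
  obtain ⟨r, B, θ, T, hr, hB, hθ, hvol, hT, hcov⟩ :=
    struct_tf htf' hA'ne hK' hK1 hfin hsize hX hρ0 hρ
  have hX1 : (1 : ℝ) ≤ X.card := by
    obtain ⟨a, ha⟩ := hA'ne
    obtain ⟨x, hx, -⟩ := hX a ha
    exact_mod_cast Finset.card_pos.2 ⟨x, hx⟩
  have hK₁pos : 0 < K * X.card := by positivity
  have hMκ : 8.28 ≤ (M : ℝ) * κ := by nlinarith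
  refine ⟨r, B, Γ.subtype.comp θ, T.image Γ.subtype, ?_, hB, ?_, ?_, ?_, ?_⟩
  · have h1 : Real.log (K * X.card) ≤ 4.3 * M * κ := by
      rw [Real.log_le_iff_le_exp hK₁pos]; exact hKX
    rw [← hκ]
    calc (r : ℝ) ≤ 480 * Real.log (K * X.card) + 1 := hr
      _ ≤ 480 * (4.3 * M * κ) + 1 := by linarith
      _ ≤ 2100 * M * κ := by nlinarith
  · intro x hx y hy h
    exact hθ hx hy (hinj h)
  · rw [← hκ, ← hcard]; exact hvol
  · have h1 : ((T.image Γ.subtype).card : ℝ) ≤ T.card := by exact_mod_cast Finset.card_image_le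
    have h2 : (2 * K : ℝ) ^ (800 * M) = Real.exp (800 * M * κ) := by
      have h3 : Real.exp κ = 2 * K := by rw [hκ, Real.exp_log (by linarith)]
      rw [← h3, ← Real.exp_nat_mul]
      push_cast
      ring_nf
    rw [h2]
    calc ((T.image Γ.subtype).card : ℝ) ≤ T.card := h1
      _ ≤ (K * X.card) ^ 186 := hT
      _ ≤ (Real.exp (4.3 * M * κ)) ^ 186 := pow_le_pow_left₀ hK₁pos.le hKX _
      _ = Real.exp (186 * (4.3 * M * κ)) := by rw [← Real.exp_nat_mul]; norm_num
      _ ≤ Real.exp (800 * M * κ) := by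
        apply Real.exp_le_exp.2
        nlinarith
  · intro a ha
    rw [← hA'] at ha
    obtain ⟨a', ha', rfl⟩ := Finset.mem_image.1 ha
    obtain ⟨t, ht, x, hx, e⟩ := hcov a' ha'
    refine ⟨Γ.subtype t, Finset.mem_image_of_mem _ ht, x, hx, ?_⟩
    rw [e, map_add]
    rfl

end Pool.Agent.E8helper15.FR
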