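import Pool.Agent.E8helper15.FR.Core
set_option autoImplicit false

/-! From a Bohr set to a proper convex progression of small dimension (torsion-free groups). -/

namespace Pool.Agent.E8helper15.FR

open Finset H112 Pool.Agent.Y806.DF
open scoped Pointwise

variable {G : Type*} [AddCommGroup G]

theorem LL_mono {m : ℕ} {N : Seminorm ℝ (Fin m → ℝ)} {a b : ℝ} (h : a ≤ b) : LL N a ⊆ LL N b :=
  fun _ hc => le_trans hc h

theorem LL_plus {m : ℕ} {N : Seminorm ℝ (Fin m → ℝ)} {a b : ℝ} {c d : Fin m → ℤ}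
    (hc : c ∈ LL N a) (hd : d ∈ LL N b) : c + d ∈ LL N (a + b) := by
  have h1 : (fun i => (((c + d) i : ℤ) : ℝ)) = (fun i => (c i : ℝ)) + (fun i => (d i : ℝ)) := by
    funext i; simp
  show N _ ≤ a + b
  rw [h1]
  exact (map_add_le_add N _ _).trans (add_le_add hc hd)

theorem struct_tf [DecidableEq G]
    (htf : ∀ (n : ℕ) (x : G), n ≠ 0 → n • x = 0 → x = 0) {K : ℝ} {A : Finset G}
    (hA : A.Nonempty) (hK : ((A + A).card : ℝ) ≤ K * A.card) (hK1 : 1 ≤ K)
    {S : Set (G →+ UnitAddCircle)} {X : Finset G} {ρ V : ℝ}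
    (hfin : (bohr S (1 / 6)).Finite) (hsize : ((bohr S (1 / 6)).ncard : ℝ) ≤ V * A.card)
    (hX : ∀ a ∈ A, ∃ x ∈ X, a - x ∈ bohr S ρ) (hρ0 : 0 ≤ ρ) (hρ : ρ ≤ 1 / 12) :
    ∃ (r : ℕ) (B : Set (Fin r → ℝ)) (θ : (Fin r → ℤ) →+ G) (T : Finset G),
      (r : ℝ) ≤ 480 * Real.log (K * X.card) + 1 ∧ Body B ∧ Set.InjOn θ (lat B) ∧
      ((lat B).ncard : ℝ) ≤ V * A.card ∧ (T.card : ℝ) ≤ (K * X.card) ^ 186 ∧
      ∀ a ∈ A, ∃ t ∈ T, ∃ x ∈ lat B, a = t + θ x := by
  classical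
  obtain ⟨m, N, ψ, hN, h1, h2, -⟩ := lattice_repr S hfin hρ0 (by linarith : ρ ≤ 1 / 6)
  have hApos : (0 : ℝ) < A.card := by exact_mod_cast hA.card_pos
  -- the annihilator is trivial
  have hann : ∀ x ∈ ann S, x = 0 := by
    intro x hx
    haveI := ann_finite hfin
    have h3 : Nat.card (ann S) • (⟨x, hx⟩ : ann S) = 0 := card_nsmul_eq_zero'
    have h4 : Nat.card (ann S) • x = 0 := by
      have h5 := congrArg (ann S).subtype h3
      rw [map_nsmul, map_zero] at h5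
      exact h5
    exact htf _ x Nat.card_pos.ne' h4
  have hinj : Set.InjOn ψ (LL N (1 / 6)) := gap_inj S N ψ hN h1
  have hLfin : (LL N (1 / 6)).Finite := gap_finite S hfin N ψ hN h1
  have hρ6 : ρ ≤ 1 / 6 := by linarith
  have h2ρ : ρ + ρ ≤ 1 / 6 := by linarith
  -- a popular translate
  obtain ⟨x0, hx0, hpop⟩ := pigeon X A A hA (fun x a => a - x ∈ bohr S ρ) (Finset.Subset.refl _) hX
  obtain ⟨A1, hA1⟩ : ∃ A1 : Finset (Fin m → ℤ), ∀ c, c ∈ A1 ↔ c ∈ LL N ρ ∧ x0 + ψ c ∈ A := by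
    refine ⟨(hLfin.subset (LL_mono hρ6)).toFinset.filter (fun c => x0 + ψ c ∈ A), fun c => ?_⟩
    rw [Finset.mem_filter, Set.Finite.mem_toFinset]
  have hA1card : (A.filter (fun a => a - x0 ∈ bohr S ρ)).card ≤ A1.card := by
    have h3 : A.filter (fun a => a - x0 ∈ bohr S ρ) ⊆ A1.image (fun c => x0 + ψ c) := by
      intro a ha
      obtain ⟨ha1, ha2⟩ := Finset.mem_filter.1 ha
      obtain ⟨c, hc, hc2⟩ := h2 _ ha2
      have h4 : a - x0 - ψ c = 0 := hann _ hc2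
      have h5 : x0 + ψ c = a := by
        have := sub_eq_zero.1 h4
        rw [← this]
        abel
      rw [Finset.mem_image]
      refine ⟨c, (hA1 c).2 ⟨hc, ?_⟩, h5⟩
      rw [h5]; exact ha1
    exact (Finset.card_le_card h3).trans Finset.card_image_le
  have hAX : (A.card : ℝ) ≤ X.card * A1.card := by
    have : A.card ≤ X.card * A1.card := hpop.trans (Nat.mul_le_mul_left _ hA1card)
    exact_mod_cast this
  have hXpos : (1 : ℝ) ≤ X.card := by
    have : 0 < X.card := Finset.card_pos.2 ⟨x0, hx0⟩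
    exact_mod_cast this
  have hA1pos : 0 < A1.card := by
    by_contra h
    have h0 : A1.card = 0 := by omega
    rw [h0, Nat.cast_zero, mul_zero] at hAX
    linarith
  have hA1ne : A1.Nonempty := Finset.card_pos.1 hA1pos
  have hK0 : 0 < K := by linarith
  obtain ⟨K₁, hK₁⟩ : ∃ K₁ : ℝ, K₁ = K * X.card := ⟨_, rfl⟩
  have hK₁1 : 1 ≤ K₁ := by
    rw [hK₁]; nlinarith
  have hK₁0 : 0 < K₁ := by linarith
  -- doubling of `A1`
  have hdoub : ((A1 + A1).card : ℝ) ≤ K₁ * A1.card := by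
    have h3 : (A1 + A1).card ≤ (A + A).card := by
      refine Finset.card_le_card_of_injOn (fun v => (x0 + x0) + ψ v) ?_ ?_
      · intro v hv
        obtain ⟨a, ha, b, hb, rfl⟩ := Finset.mem_add.1 (Finset.mem_coe.1 hv)
        rw [Finset.mem_coe]
        have e : (x0 + x0) + ψ (a + b) = (x0 + ψ a) + (x0 + ψ b) := by rw [map_add]; abel
        show (x0 + x0) + ψ (a + b) ∈ A + A
        rw [e]
        exact Finset.add_mem_add ((hA1 a).1 ha).2 ((hA1 b).1 hb).2
      · intro v hv w hw h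
        obtain ⟨a, ha, b, hb, rfl⟩ := Finset.mem_add.1 (Finset.mem_coe.1 hv)
        obtain ⟨a', ha', b', hb', rfl⟩ := Finset.mem_add.1 (Finset.mem_coe.1 hw)
        exact hinj (LL_mono h2ρ (LL_plus ((hA1 a).1 ha).1 ((hA1 b).1 hb).1))
          (LL_mono h2ρ (LL_plus ((hA1 a').1 ha').1 ((hA1 b').1 hb').1)) (add_left_cancel h)
    calc ((A1 + A1).card : ℝ) ≤ (A + A).card := by exact_mod_cast h3
      _ ≤ K * A.card := hK
      _ ≤ K * (X.card * A1.card) := mul_le_mul_of_nonneg_left hAX hK0.le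
      _ = K₁ * A1.card := by rw [hK₁]; ring
  obtain ⟨r, φ, t, Y, hr, hφ, hY, hXY, hsub⟩ := reduce A1 hA1ne hK₁1 hdoub
  -- the large piece
  set Z := Y.image (fun y => x0 + ψ (t + φ y)) with hZ
  have hZcard : Z.card = Y.card := by
    refine Finset.card_image_of_injOn ?_
    intro y hy y' hy' h
    have h3 := hinj (LL_mono hρ6 ((hA1 _).1 (hsub y hy)).1) (LL_mono hρ6 ((hA1 _).1 (hsub y' hy')).1)
      (add_left_cancel h)
    exact hφ (add_left_cancel h3)
  have hZne : Z.Nonempty := hY.image _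
  have hZA : Z ⊆ A := by
    intro z hz
    obtain ⟨y, hy, rfl⟩ := Finset.mem_image.1 hz
    exact ((hA1 _).1 (hsub y hy)).2
  have hAZ : ((A + Z).card : ℝ) ≤ K₁ ^ 186 * Z.card := by
    have h3 : ((A + Z).card : ℝ) ≤ (A + A).card := by
      exact_mod_cast Finset.card_le_card (Finset.add_subset_add_left hZA)
    calc ((A + Z).card : ℝ) ≤ (A + A).card := h3
      _ ≤ K * A.card := hK
      _ ≤ K * (X.card * A1.card) := mul_le_mul_of_nonneg_left hAX hK0.le
      _ = K₁ * A1.card := by rw [hK₁]; ring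
      _ ≤ K₁ * (K₁ ^ 185 * Y.card) := mul_le_mul_of_nonneg_left hXY hK₁0.le
      _ = K₁ ^ 186 * Z.card := by rw [hZcard]; ring
  obtain ⟨F, -, hF, hcov⟩ := Finset.ruzsa_covering_add hZne hAZ
  -- the convex body
  set D0 : Set (Fin r → ℤ) := {w | φ w ∈ LL N (ρ + ρ)} with hD0
  have hD0fin : D0.Finite := by
    have h3 : (φ ⁻¹' (LL N (ρ + ρ))).Finite :=
      (hLfin.subset (LL_mono h2ρ)).preimage (fun x _ y _ h => hφ h)
    exact h3
  set D : Set (Fin r → ℝ) := re '' D0 with hD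
  have hDfin : D.Finite := hD0fin.image re
  have hD0neg : ∀ w ∈ D0, -w ∈ D0 := by
    intro w hw
    show N (fun i => ((φ (-w) i : ℤ) : ℝ)) ≤ ρ + ρ
    have e : (fun i => ((φ (-w) i : ℤ) : ℝ)) = -(fun i => ((φ w i : ℤ) : ℝ)) := by
      funext i
      simp
    rw [e, map_neg_eq_map]
    exact hw
  have hDneg : -D = D := by
    ext x
    rw [Set.mem_neg]
    constructor
    · rintro ⟨v, hv, hvx⟩
      exact ⟨-v, hD0neg v hv, by rw [re_neg, hvx, neg_neg]⟩
    · rintro ⟨v, hv, rfl⟩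
      exact ⟨-v, hD0neg v hv, re_neg v⟩
  have hsym : Sym (convexHull ℝ D) := by
    refine ⟨convex_convexHull ℝ D, hDfin.isCompact_convexHull ℝ, ?_, ?_⟩
    · intro x hx
      have h3 : -(convexHull ℝ D) = convexHull ℝ D := by rw [← convexHull_neg, hDneg]
      rw [← h3, Set.mem_neg, neg_neg]
      exact hx
    · refine ⟨re 0, subset_convexHull ℝ D ⟨0, ?_, rfl⟩⟩
      show N (fun i => ((φ 0 i : ℤ) : ℝ)) ≤ ρ + ρ
      have e : (fun i => ((φ 0 i : ℤ) : ℝ)) = (0 : Fin m → ℝ) := by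
        funext i
        simp
      rw [e, map_zero]
      linarith
  have hlatD : ∀ v ∈ lat (convexHull ℝ D), φ v ∈ LL N (ρ + ρ) := by
    intro v hv
    have h3 : convexHull ℝ D ⊆ (N.comp (ext φ)).closedBall 0 (ρ + ρ) := by
      refine convexHull_min ?_ ((N.comp (ext φ)).convex_closedBall 0 (ρ + ρ))
      rintro _ ⟨w, hw, rfl⟩
      rw [Seminorm.mem_closedBall_zero, Seminorm.comp_apply, ext_re]
      exact hw
    have h4 := h3 hv
    rw [Seminorm.mem_closedBall_zero, Seminorm.comp_apply, ext_re] at h4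
    exact h4
  obtain ⟨B, hB, hlatB⟩ := fatten hsym
  have hθinj : Set.InjOn (ψ.comp φ) (lat B) := by
    rw [hlatB]
    intro v hv w hw h
    exact hφ (hinj (LL_mono h2ρ (hlatD v hv)) (LL_mono h2ρ (hlatD w hw)) h)
  refine ⟨r, B, ψ.comp φ, F, ?_, hB, hθinj, ?_, ?_, ?_⟩
  · rw [← hK₁]; exact hr
  · refine le_trans ?_ hsize
    have h3 : (lat B).ncard ≤ (bohr S (1 / 6)).ncard := by
      refine Set.ncard_le_ncard_of_injOn (ψ.comp φ) ?_ hθinj hfin
      intro v hv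
      rw [hlatB] at hv
      exact gap_map_mem S N ψ h1 (by norm_num) le_rfl (LL_mono h2ρ (hlatD v hv))
    exact_mod_cast h3
  · rw [← hK₁]; exact hF
  · intro a ha
    obtain ⟨f, hf, u, hu, rfl⟩ := Finset.mem_add.1 (hcov ha)
    obtain ⟨z, hz, z', hz', rfl⟩ := Finset.mem_sub.1 hu
    obtain ⟨y, hy, rfl⟩ := Finset.mem_image.1 hz
    obtain ⟨y', hy', rfl⟩ := Finset.mem_image.1 hz'
    refine ⟨f, hf, y - y', ?_, ?_⟩
    · rw [hlatB]
      refine subset_convexHull ℝ D ⟨y - y', ?_, rfl⟩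
      have h3 := LL_add N ((hA1 _).1 (hsub y hy)).1 ((hA1 _).1 (hsub y' hy')).1
      have e : t + φ y - (t + φ y') = φ (y - y') := by rw [map_sub]; abel
      rw [e] at h3
      exact h3
    · show f + (x0 + ψ (t + φ y) - (x0 + ψ (t + φ y'))) = f + ψ (φ (y - y'))
      rw [map_sub, map_sub, map_add, map_add]
      abel

end Pool.Agent.E8helper15.FR
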